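import Mathlib

/-!
The instance: minimise `-20 (x^2 + z^2 + h^2) + x + 10 h` over the intersection of the ellipsoids
`9 x^2 + 9 z^2 + 16 h^2 ≤ 25` and `2 x^2 + 2 z^2 + h^2 ≤ 3`.
-/

set_option autoImplicit false

namespace Pool.Agent.P.MP_2e17cf_an

open Filter Topology

/-- The objective. -/
def obj (w : Fin 3 → ℝ) : ℝ := -20 * (w 0 ^ 2 + w 1 ^ 2 + w 2 ^ 2) + w 0 + 10 * w 2

/-- The feasible set. -/
def feas : Set (Fin 3 → ℝ) :=
  {w | 9 * w 0 ^ 2 + 9 * w 1 ^ 2 + 16 * w 2 ^ 2 - 25 ≤ 0 ∧ 2 * w 0 ^ 2 + 2 * w 1 ^ 2 + w 2 ^ 2 - 3 ≤ 0}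

/-- A feasible curve along which the objective drops rules out a local minimum. -/
lemma not_localMin {E : Type*} [TopologicalSpace E] {f : E → ℝ} {F : Set E} {y : E}
    (γ : ℝ → E) (hγ : ContinuousAt γ 0) (h0 : γ 0 = y) (δ : ℝ) (hδ : 0 < δ)
    (hF : ∀ t, 0 < t → t < δ → γ t ∈ F) (hf : ∀ t, 0 < t → t < δ → f (γ t) < f y) :
    ¬ IsLocalMinOn f F y := by
  intro h
  have h1 : Tendsto γ (𝓝[>] 0) (𝓝[F] y) := by
    rw [tendsto_nhdsWithin_iff]
    constructor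
    · rw [← h0]
      exact hγ.tendsto.mono_left nhdsWithin_le_nhds
    · filter_upwards [Ioo_mem_nhdsGT hδ] with t ht using hF t ht.1 ht.2
  have h2 : ∀ᶠ t in 𝓝[>] (0:ℝ), f y ≤ f (γ t) := h1.eventually h
  have h3 : ∀ᶠ t in 𝓝[>] (0:ℝ), f (γ t) < f y := by
    filter_upwards [Ioo_mem_nhdsGT hδ] with t ht using hf t ht.1 ht.2
  obtain ⟨t, ht1, ht2⟩ := (h2.and h3).exists
  linarith

lemma global_bound (w : Fin 3 → ℝ) (hw : w ∈ feas) :
    (1 / 2) * ((w 0 + 1) ^ 2 + w 1 ^ 2) + 5 * (w 2 + 1) ^ 2 + (-51) ≤ obj w := by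
  obtain ⟨h1, h2⟩ := hw
  unfold obj
  nlinarith

lemma p0_mem : (![-1, 0, -1] : Fin 3 → ℝ) ∈ feas := by
  constructor <;> simp <;> norm_num

lemma p1_mem : (![-1, 0, 1] : Fin 3 → ℝ) ∈ feas := by
  constructor <;> simp <;> norm_num

lemma q_mem : (![1, 0, -1] : Fin 3 → ℝ) ∈ feas := by
  constructor <;> simp <;> norm_num

lemma obj_p0 : obj ![-1, 0, -1] = -51 := by simp [obj]; norm_num

lemma obj_p1 : obj ![-1, 0, 1] = -31 := by simp [obj]; norm_num

lemma obj_q : obj ![1, 0, -1] = -49 := by simp [obj]; norm_num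

lemma isMinOn_p0 : IsMinOn obj feas ![-1, 0, -1] := by
  intro w hw
  have := global_bound w hw
  show obj ![-1, 0, -1] ≤ obj w
  rw [obj_p0]
  nlinarith [sq_nonneg (w 0 + 1), sq_nonneg (w 1), sq_nonneg (w 2 + 1)]

lemma eq_p0 (w : Fin 3 → ℝ) (hw : w ∈ feas) (hm : IsMinOn obj feas w) : w = ![-1, 0, -1] := by
  have h1 := global_bound w hw
  have h2 : obj w ≤ obj ![-1, 0, -1] := hm p0_mem
  rw [obj_p0] at h2
  have a0 : (w 0 + 1) ^ 2 = 0 := by
    nlinarith [sq_nonneg (w 0 + 1), sq_nonneg (w 1), sq_nonneg (w 2 + 1)]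
  have a1 : w 1 ^ 2 = 0 := by
    nlinarith [sq_nonneg (w 0 + 1), sq_nonneg (w 1), sq_nonneg (w 2 + 1)]
  have a2 : (w 2 + 1) ^ 2 = 0 := by
    nlinarith [sq_nonneg (w 0 + 1), sq_nonneg (w 1), sq_nonneg (w 2 + 1)]
  have b0 : w 0 = -1 := by linarith [pow_eq_zero_iff (two_ne_zero) |>.1 a0]
  have b1 : w 1 = 0 := pow_eq_zero_iff (two_ne_zero) |>.1 a1
  have b2 : w 2 = -1 := by linarith [pow_eq_zero_iff (two_ne_zero) |>.1 a2]
  ext i
  fin_cases i <;> simp [b0, b1, b2]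

lemma not_isMinOn_of_lt (w : Fin 3 → ℝ) (h : -51 < obj w) : ¬ IsMinOn obj feas w := by
  intro hm
  have h2 : obj w ≤ obj ![-1, 0, -1] := hm p0_mem
  rw [obj_p0] at h2
  linarith

lemma isLocalMinOn_p1 : IsLocalMinOn obj feas ![-1, 0, 1] := by
  have hopen : {w : Fin 3 → ℝ | 1 / 2 < w 2 ∧ w 2 < 2} ∈ 𝓝 (![-1, 0, 1] : Fin 3 → ℝ) := by
    apply IsOpen.mem_nhds
    · exact (isOpen_lt continuous_const (continuous_apply 2)).inter
        (isOpen_lt (continuous_apply 2) continuous_const)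
    · constructor <;> simp <;> norm_num
  show ∀ᶠ w in 𝓝[feas] (![-1, 0, 1] : Fin 3 → ℝ), obj ![-1, 0, 1] ≤ obj w
  filter_upwards [self_mem_nhdsWithin, mem_nhdsWithin_of_mem_nhds hopen] with w hw hw2
  obtain ⟨h1, h2⟩ := hw
  obtain ⟨h3, h4⟩ := hw2
  rw [obj_p1]
  unfold obj
  rcases le_total (w 2) 1 with h | h
  · nlinarith [sq_nonneg (w 0 + 1), sq_nonneg (w 1), mul_nonneg (sub_nonneg.2 h) (sub_nonneg.2 h3.le)]
  · nlinarith [sq_nonneg (w 0 + 1), sq_nonneg (w 1), mul_nonneg (sub_nonneg.2 h) (sub_nonneg.2 h4.le)]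

/-- A local minimiser lies on the half plane `z = 0`, `x ≤ 0`. -/
lemma localMin_axis (y : Fin 3 → ℝ) (hy : y ∈ feas) (hm : IsLocalMinOn obj feas y) :
    y 1 = 0 ∧ y 0 ≤ 0 := by
  by_contra hcon
  obtain ⟨s, hs, hsz⟩ : ∃ s : ℝ, s ^ 2 = 1 ∧ s * y 1 = |y 1| := by
    rcases le_total 0 (y 1) with h | h
    · exact ⟨1, by norm_num, by rw [abs_of_nonneg h]; ring⟩
    · exact ⟨-1, by norm_num, by rw [abs_of_nonpos h]; ring⟩
  obtain ⟨δ, hδ, hδ'⟩ : ∃ δ : ℝ, 0 < δ ∧ ∀ t, 0 < t → t < δ → 0 < t * y 0 + |y 1| := by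
    by_cases hz : y 1 = 0
    · have hx : 0 < y 0 := by
        by_contra hx
        exact hcon ⟨hz, not_lt.1 hx⟩
      refine ⟨1, one_pos, fun t ht _ => ?_⟩
      have := mul_pos ht hx
      have := abs_nonneg (y 1)
      linarith
    · have hz' : 0 < |y 1| := abs_pos.2 hz
      refine ⟨|y 1| / 2, by linarith, fun t ht ht' => ?_⟩
      have hx : -2 ≤ y 0 := by
        obtain ⟨_, h2⟩ := hy
        nlinarith [sq_nonneg (y 1), sq_nonneg (y 2)]
      nlinarith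
  refine not_localMin (f := obj) (F := feas)
    (fun t => ![((1 - t ^ 2) * y 0 - 2 * t * s * y 1) / (1 + t ^ 2),
      ((1 - t ^ 2) * y 1 + 2 * t * s * y 0) / (1 + t ^ 2), y 2]) ?_ ?_ δ hδ ?_ ?_ hm
  · apply Continuous.continuousAt
    refine continuous_pi fun i => ?_
    fin_cases i
    · exact Continuous.div (by fun_prop) (by fun_prop) fun t => by positivity
    · exact Continuous.div (by fun_prop) (by fun_prop) fun t => by positivity
    · exact continuous_const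
  · ext i
    fin_cases i <;> simp
  · intro t _ _
    have hr : (((1 - t ^ 2) * y 0 - 2 * t * s * y 1) / (1 + t ^ 2)) ^ 2 +
        (((1 - t ^ 2) * y 1 + 2 * t * s * y 0) / (1 + t ^ 2)) ^ 2 = y 0 ^ 2 + y 1 ^ 2 := by
      have : (1 + t ^ 2) ≠ 0 := by positivity
      field_simp
      linear_combination (4 * t ^ 2 * (y 0 ^ 2 + y 1 ^ 2)) * hs
    obtain ⟨h1, h2⟩ := hy
    constructor
    · simp only [Matrix.cons_val_zero, Matrix.cons_val_one, Matrix.cons_val]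
      linarith
    · simp only [Matrix.cons_val_zero, Matrix.cons_val_one, Matrix.cons_val]
      linarith
  · intro t ht ht'
    have hr : (((1 - t ^ 2) * y 0 - 2 * t * s * y 1) / (1 + t ^ 2)) ^ 2 +
        (((1 - t ^ 2) * y 1 + 2 * t * s * y 0) / (1 + t ^ 2)) ^ 2 = y 0 ^ 2 + y 1 ^ 2 := by
      have : (1 + t ^ 2) ≠ 0 := by positivity
      field_simp
      linear_combination (4 * t ^ 2 * (y 0 ^ 2 + y 1 ^ 2)) * hs
    have hx : ((1 - t ^ 2) * y 0 - 2 * t * s * y 1) / (1 + t ^ 2) < y 0 := by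
      rw [div_lt_iff₀ (by positivity)]
      have h1 := hδ' t ht ht'
      rw [← hsz] at h1
      nlinarith [mul_pos ht h1]
    unfold obj
    simp only [Matrix.cons_val_zero, Matrix.cons_val_one, Matrix.cons_val]
    linarith

/-- First order condition in the direction of the global minimiser. -/
lemma localMin_dir (y : Fin 3 → ℝ) (hy : y ∈ feas) (hm : IsLocalMinOn obj feas y)
    (hz : y 1 = 0) (hne : y ≠ ![-1, 0, -1]) :
    0 < (-40 * y 0 + 1) * (-1 - y 0) + (10 - 40 * y 2) * (-1 - y 2) := by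
  by_contra hcon
  push Not at hcon
  have hpos : 0 < (-1 - y 0) ^ 2 + (-1 - y 2) ^ 2 := by
    by_contra h
    apply hne
    have a0 : (-1 - y 0) ^ 2 = 0 := by nlinarith [sq_nonneg (-1 - y 0), sq_nonneg (-1 - y 2)]
    have a2 : (-1 - y 2) ^ 2 = 0 := by nlinarith [sq_nonneg (-1 - y 0), sq_nonneg (-1 - y 2)]
    have b0 : y 0 = -1 := by linarith [pow_eq_zero_iff (two_ne_zero) |>.1 a0]
    have b2 : y 2 = -1 := by linarith [pow_eq_zero_iff (two_ne_zero) |>.1 a2]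
    ext i
    fin_cases i <;> simp [b0, hz, b2]
  refine not_localMin (f := obj) (F := feas)
    (fun t => ![y 0 + t * (-1 - y 0), 0, y 2 + t * (-1 - y 2)]) ?_ ?_ 1 one_pos ?_ ?_ hm
  · apply Continuous.continuousAt
    refine continuous_pi fun i => ?_
    fin_cases i
    · show Continuous fun t : ℝ => y 0 + t * (-1 - y 0)
      fun_prop
    · exact continuous_const
    · show Continuous fun t : ℝ => y 2 + t * (-1 - y 2)
      fun_prop
  · ext i
    fin_cases i <;> simp [hz]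
  · intro t ht ht'
    obtain ⟨h1, h2⟩ := hy
    rw [hz] at h1 h2
    have e1 := mul_nonneg (mul_pos ht (sub_pos.2 ht')).le (sq_nonneg (-1 - y 0))
    have e2 := mul_nonneg (mul_pos ht (sub_pos.2 ht')).le (sq_nonneg (-1 - y 2))
    have e3 := mul_nonneg (sub_pos.2 ht').le (neg_nonneg.2 h1)
    have e4 := mul_nonneg (sub_pos.2 ht').le (neg_nonneg.2 h2)
    constructor
    · simp only [Matrix.cons_val_zero, Matrix.cons_val_one, Matrix.cons_val]
      nlinarith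
    · simp only [Matrix.cons_val_zero, Matrix.cons_val_one, Matrix.cons_val]
      nlinarith
  · intro t ht ht'
    unfold obj
    simp only [Matrix.cons_val_zero, Matrix.cons_val_one, Matrix.cons_val]
    rw [hz]
    have e1 := mul_pos (mul_pos ht ht) hpos
    have e2 := mul_nonneg ht.le (neg_nonneg.2 hcon)
    nlinarith

lemma arith (r h : ℝ) (hr : 0 ≤ r) (h1 : 9 * r ^ 2 + 16 * h ^ 2 - 25 ≤ 0)
    (h2 : 2 * r ^ 2 + h ^ 2 - 3 ≤ 0)
    (h3 : 0 < (40 * r + 1) * (-1 + r) + (10 - 40 * h) * (-1 - h)) :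
    -48 ≤ -20 * (r ^ 2 + h ^ 2) - r + 10 * h := by
  have hr2 : r ≤ 5 / 4 := by nlinarith
  have hh : -5 / 4 ≤ h := by nlinarith
  have hh' : h ≤ 5 / 4 := by nlinarith
  by_cases c1 : -1 / 4 ≤ h
  · nlinarith
  push Not at c1
  by_cases c2 : -1 ≤ h
  · exfalso
    by_cases c3 : r ≤ 1
    · nlinarith [mul_nonneg (sub_nonneg.2 c3) hr, mul_nonneg (sub_nonneg.2 c2) (sub_nonneg.2 c1.le)]
    · push Not at c3
      nlinarith [mul_nonneg (sub_nonneg.2 c2) (sub_nonneg.2 c1.le)]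
  · push Not at c2
    by_cases c3 : r ≤ 3 / 5
    · nlinarith
    · exfalso
      push Not at c3
      have c4 : r ≤ 1 := by nlinarith
      nlinarith [mul_nonneg (sub_nonneg.2 c4) (sub_nonneg.2 c3.le),
        mul_nonneg (sub_nonneg.2 c2.le) (sub_nonneg.2 hh)]

/-- Every local minimiser which is not global has value at least `-48`. -/
lemma localMin_value (y : Fin 3 → ℝ) (hy : y ∈ feas) (hm : IsLocalMinOn obj feas y)
    (hng : ¬ IsMinOn obj feas y) : -48 ≤ obj y := by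
  obtain ⟨hz, hx⟩ := localMin_axis y hy hm
  have hne : y ≠ ![-1, 0, -1] := by
    rintro rfl
    exact hng isMinOn_p0
  have hd := localMin_dir y hy hm hz hne
  obtain ⟨h1, h2⟩ := hy
  rw [hz] at h1 h2
  have := arith (-y 0) (y 2) (by linarith) (by nlinarith) (by nlinarith) (by nlinarith)
  unfold obj
  rw [hz]
  nlinarith

end Pool.Agent.P.MP_2e17cf_an
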